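import Pool.Agent.Work.MP_e0d3e3_co.Main

/-!
# Kissing configurations in dimension five that contain the `D4` root system

Let `X` be a kissing configuration in `ℝ⁵` (unit vectors with pairwise inner products at most
`1/2`) that contains an isometric copy of the 24 roots of `D4`. Then `X` has at most 40 points, and
it has exactly 40 points if and only if it is the image, under a linear isometry of `ℝ⁵`, of the
root system `D5` or of Leech's configuration `L5`.
-/

namespace Pool.Agent.Results.MP_e0d3e3_co.ContainsD4

open Pool.Agent.Work.MP_e0d3e3_co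

theorem result (X : Set E5) (hX : IsKissing X) (φ : E4 →ₗᵢ[ℝ] E5) (hφ : φ '' D4 ⊆ X) :
    X.encard ≤ 40 ∧
      (X.encard = 40 ↔ ∃ ψ : E5 ≃ₗᵢ[ℝ] E5, X = ψ '' D5 ∨ X = ψ '' L5) :=
  main X hX φ hφ

end Pool.Agent.Results.MP_e0d3e3_co.ContainsD4
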