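import Pool.Agent.Work.MP_e0d3e3_co.Section

/-!
# Kissing configurations over a hyperplane section that is a 45-degree covering

Let `X` be a set of unit vectors with pairwise inner products at most `1/2` in a Euclidean space of
dimension `n + 1`, `n ≥ 1`, and let `e` be a unit vector. Then at most `4 n` points of `X` are at
distance at least `√2/2` from the hyperplane orthogonal to `e`. If `n ≥ 2` and there are exactly
`4 n` such points, they are `(±u_i + e)/√2` and `(±v_i - e)/√2` for two orthonormal bases `(u_i)`,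
`(v_i)` of the hyperplane. If moreover the points of `X` in the hyperplane form a 45-degree covering
of its unit sphere, then every point of `X` off the hyperplane is at distance at least `√2/2` from
it, so that at most `4 n` points of `X` are off the hyperplane.
-/

namespace Pool.Agent.Results.MP_e0d3e3_co.CoveringSection

open Module Pool.Agent.Work.MP_e0d3e3_co
open scoped InnerProductSpace

theorem result {E : Type*} [NormedAddCommGroup E] [InnerProductSpace ℝ E]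
    [FiniteDimensional ℝ E] {n : ℕ} (hn : finrank ℝ E = n + 1) (hn1 : 1 ≤ n) (X : Set E)
    (h1 : ∀ x ∈ X, ‖x‖ = 1) (h2 : ∀ x ∈ X, ∀ y ∈ X, x ≠ y → ⟪x, y⟫_ℝ ≤ 1 / 2)
    (e : E) (he : ‖e‖ = 1) :
    {x ∈ X | √2 / 2 ≤ |⟪e, x⟫_ℝ|}.encard ≤ 4 * n ∧
      (2 ≤ n → {x ∈ X | √2 / 2 ≤ |⟪e, x⟫_ℝ|}.encard = 4 * n →
        ∃ u v : OrthonormalBasis (Fin n) ℝ (ℝ ∙ e)ᗮ, ∀ x, (x ∈ X ∧ √2 / 2 ≤ |⟪e, x⟫_ℝ|) ↔
          ∃ i, x = (√2 / 2) • (e + u i) ∨ x = (√2 / 2) • (e - u i) ∨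
            x = (√2 / 2) • (-e + v i) ∨ x = (√2 / 2) • (-e - v i)) ∧
      ((∀ u : E, ‖u‖ = 1 → ⟪e, u⟫_ℝ = 0 → ∃ z ∈ X, ⟪e, z⟫_ℝ = 0 ∧ √2 / 2 ≤ ⟪z, u⟫_ℝ) →
        {x ∈ X | ⟪e, x⟫_ℝ ≠ 0} = {x ∈ X | √2 / 2 ≤ |⟪e, x⟫_ℝ|}) :=
  ⟨(caps_main hn hn1 h1 h2 he).1, (caps_main hn hn1 h1 h2 he).2, off_eq h1 h2 he⟩

end Pool.Agent.Results.MP_e0d3e3_co.CoveringSection
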