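import Pool.Agent.Work.MP_e0d3e3_co.Obtuse

/-!
# Kissing configurations and odd cycles of pairs at angles larger than 120 degrees

Let `(n, K)` be `(5, 20)`, `(6, 36)` or `(7, 63)` and let `X` be a finite kissing configuration of
`ℝⁿ`: unit vectors with pairwise inner products at most `1/2`.

* A subset of `X` with all inner products at least `-1/2` has at most `K` points.
* If `X` has more than `2 K` points, then some points of `X` whose antipodes are not in `X` form a
  closed chain of odd length in which consecutive points are at an angle larger than 120 degrees.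
* If at most four points of `X` lack their antipode in `X`, then `X` has at most `2 K` points.
-/

namespace Pool.Agent.Results.MP_e0d3e3_co.ObtuseCycles

theorem result (n K : ℕ) (hnK : (n = 5 ∧ K = 20) ∨ (n = 6 ∧ K = 36) ∨ (n = 7 ∧ K = 63))
    (X : Finset (EuclideanSpace ℝ (Fin n)))
    (h1 : ∀ x ∈ X, ‖x‖ = 1)
    (h2 : ∀ x ∈ X, ∀ y ∈ X, x ≠ y → inner ℝ x y ≤ 1 / 2) :
    (∀ S ⊆ X, (∀ x ∈ S, ∀ y ∈ S, -(1 / 2) ≤ inner ℝ x y) → S.card ≤ K) ∧
    (2 * K < X.card → ∃ (m : ℕ) (z : ℕ → EuclideanSpace ℝ (Fin n)), Odd m ∧ z m = z 0 ∧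
      (∀ i, z i ∈ X ∧ -z i ∉ X) ∧ ∀ i < m, inner ℝ (z i) (z (i + 1)) < -(1 / 2 : ℝ)) ∧
    ({x ∈ (X : Set (EuclideanSpace ℝ (Fin n))) | -x ∉ X}.encard ≤ 4 → X.card ≤ 2 * K) :=
  Pool.Agent.Work.MP_e0d3e3_co.Obtuse.main hnK X h1 h2

end Pool.Agent.Results.MP_e0d3e3_co.ObtuseCycles
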