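import Pool.Agent.Work.MP_e0d3e3_co.Roots

/-!
# Caps, covering sections and root sections of kissing configurations

Let `X` be a kissing configuration (unit vectors with pairwise inner products at most `1/2`) in a
Euclidean space `E` of dimension `n + 1`, let `e` be a unit vector and `H` the hyperplane
orthogonal to `e`. Let `0 ≤ s < 1/3`, `n s² < 1` and `h² = (1 - 2 s)/(2 (1 - s))`.

* At most `n (1 - s) (2 + (n + 1) s) / (1 - n s²)` points `x` of `X` satisfy `h ≤ ⟪e, x⟫`.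
* If a subset `C` of `X ∩ H` is such that every unit vector of `H` has inner product at least
  `√((1 - s)/2)` with some element of `C`, then `C = X ∩ H` and all other points of `X` satisfy
  `h ≤ |⟪e, x⟫|`.

Consequences: `X` has at most `40` points if `dim E = 5` and `X` contains a root system `A4`, at
most `72` points if `dim E = 6` and `X` contains a root system `D5`, and at most `126` points if
`dim E = 7` and `X` contains a root system `E6`.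
-/

namespace Pool.Agent.Results.MP_e0d3e3_co.RootSections

open Module
open scoped InnerProductSpace

theorem result {E : Type*} [NormedAddCommGroup E] [InnerProductSpace ℝ E]
    [FiniteDimensional ℝ E] (X : Set E) (h1 : ∀ x ∈ X, ‖x‖ = 1)
    (h2 : ∀ x ∈ X, ∀ y ∈ X, x ≠ y → ⟪x, y⟫_ℝ ≤ 1 / 2) :
    (∀ (n : ℕ) (s : ℝ) (e : E), finrank ℝ E = n + 1 → 1 ≤ n → 0 ≤ s → s < 1 / 3 →
      n * s ^ 2 < 1 → ‖e‖ = 1 →
      {x ∈ X | √((1 - 2 * s) / (2 * (1 - s))) ≤ ⟪e, x⟫_ℝ}.encard ≤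
        ⌊n * (1 - s) * (2 + (n + 1) * s) / (1 - n * s ^ 2)⌋₊ ∧
      ∀ C ⊆ X, (∀ z ∈ C, ⟪e, z⟫_ℝ = 0) →
        (∀ u : E, ‖u‖ = 1 → ⟪e, u⟫_ℝ = 0 → ∃ z ∈ C, √((1 - s) / 2) ≤ ⟪z, u⟫_ℝ) →
        {x ∈ X | ⟪e, x⟫_ℝ = 0} = C ∧
        ∀ x ∈ X, x ∉ C → √((1 - 2 * s) / (2 * (1 - s))) ≤ |⟪e, x⟫_ℝ|) ∧
    (finrank ℝ E = 5 → ∀ b : Fin 5 → E,
      (∀ i j, ⟪b i, b j⟫_ℝ = if i = j then 4 / 5 else -1 / 5) →
      (∀ i j, i ≠ j → (√2)⁻¹ • (b i - b j) ∈ X) → X.encard ≤ 40) ∧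
    (finrank ℝ E = 6 → ∀ b : Fin 5 → E, Orthonormal ℝ b →
      (∀ i j, i ≠ j → (√2)⁻¹ • (b i + b j) ∈ X ∧ (√2)⁻¹ • (b i - b j) ∈ X ∧
        (√2)⁻¹ • (-b i - b j) ∈ X) → X.encard ≤ 72) ∧
    (finrank ℝ E = 7 → ∀ b : Fin 3 → Fin 3 → E,
      (∀ k l i j, ⟪b k i, b l j⟫_ℝ = if k = l then (if i = j then 2 / 3 else -1 / 3) else 0) →
      (∀ k i j, i ≠ j → (√2)⁻¹ • (b k i - b k j) ∈ X) →
      (∀ i j l, (√2)⁻¹ • (b 0 i + b 1 j + b 2 l) ∈ X ∧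
        (√2)⁻¹ • (-b 0 i - b 1 j - b 2 l) ∈ X) → X.encard ≤ 126) := by
  refine ⟨?_, ?_, ?_, ?_⟩
  · intro n s e hn hn1 hs0 hs hns he
    refine ⟨Pool.Agent.Work.MP_e0d3e3_co.Lev.cap_main hn hn1 hs0 hs hns h1 h2 he, ?_⟩
    intro C hCX hCe hcov
    exact ⟨(Pool.Agent.Work.MP_e0d3e3_co.Lev.section_main hn hn1 hs0 hs hns h1 h2 he hCX hCe
      hcov).1, fun x hx hxC =>
      Pool.Agent.Work.MP_e0d3e3_co.Lev.section_high hs h1 h2 he hCX hCe hcov hx hxC⟩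
  · intro hn b hb hX
    exact Pool.Agent.Work.MP_e0d3e3_co.Lev.a4_main hn h1 h2 b hb hX
  · intro hn b hb hX
    exact Pool.Agent.Work.MP_e0d3e3_co.Lev.d5_main hn h1 h2 b hb hX
  · intro hn b hb hX hX'
    exact Pool.Agent.Work.MP_e0d3e3_co.Lev.e6_main hn h1 h2 b hb hX hX'

end Pool.Agent.Results.MP_e0d3e3_co.RootSections
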